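import Pool.Agent.NPG.Stmts

/-!
# Squad NPG (MP_005a41_gt), row FGL: the global functional for a group with a closed line
-/

set_option autoImplicit false

open MeasureTheory Set Topology Filter
open scoped BigOperators Pointwise

namespace Pool.Agent.NPG.H1

theorem fgl (hqml : QmlStmt) (hflo : FloStmt) : FglStmt := by
  intro H _ _ _ _ γ hγ hadd
  obtain ⟨P, Q, hP, hQ, hP0, hPt, hQt⟩ := hflo H γ hγ hadd
  have hγ0 : γ 0 = 1 := by
    have h1 := hadd 0 0
    rw [add_zero] at h1
    exact (mul_eq_left.1 h1.symm)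
  let L : Subgroup H :=
    { carrier := Set.range γ
      mul_mem' := by
        rintro _ _ ⟨s, rfl⟩ ⟨t, rfl⟩
        exact ⟨s + t, hadd s t⟩
      one_mem' := ⟨0, hγ0⟩
      inv_mem' := by
        rintro _ ⟨s, rfl⟩
        refine ⟨-s, ?_⟩
        rw [eq_inv_iff_mul_eq_one, ← hadd, neg_add_cancel, hγ0] }
  have hLc : IsClosed (L : Set H) := hγ.isClosed_range
  let π : H → H ⧸ L := fun v => (v : H ⧸ L)
  have hπc : Continuous π := QuotientGroup.continuous_mk
  have hπo : IsOpenMap π := QuotientGroup.isOpenMap_coe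
  have hπx : ∀ (v : H) (t : ℝ), π (v * γ t) = π v := by
    intro v t
    exact QuotientGroup.mk_mul_of_mem v (show γ t ∈ L from ⟨t, rfl⟩)
  have hπe : ∀ v w : H, π v = π w → ∃ t : ℝ, v = w * γ t := by
    intro v w h
    have h1 : w⁻¹ * v ∈ L := (QuotientGroup.eq (s := L)).1 h.symm
    obtain ⟨t, ht⟩ := h1
    exact ⟨t, by rw [ht, mul_inv_cancel_left]⟩
  have hmet : TopologicalSpace.MetrizableSpace (H ⧸ L) := hqml H L hLc
  let _ : MetricSpace (H ⧸ L) := TopologicalSpace.metrizableSpaceMetric _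
  have hPc : ∀ w : H, Continuous fun v => P (w⁻¹ * v) := fun w =>
    hP.comp (continuous_const.mul continuous_id)
  have hQc : ∀ w : H, Continuous fun v => Q (w⁻¹ * v) := fun w =>
    hQ.comp (continuous_const.mul continuous_id)
  -- the open sets
  let O : H → Set H := fun w => {v | 0 < P (w⁻¹ * v)}
  have hOo : ∀ w, IsOpen (O w) := fun w => isOpen_lt continuous_const (hPc w)
  have hOpre : ∀ w, π ⁻¹' (π '' (O w)) = O w := by
    intro w
    apply subset_antisymm
    · rintro v ⟨u, hu, huv⟩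
      obtain ⟨t, rfl⟩ := hπe v u huv.symm
      show 0 < P (w⁻¹ * (u * γ t))
      rw [← mul_assoc, hPt]
      exact hu
    · exact subset_preimage_image π (O w)
  obtain ⟨ρ, hρ⟩ := PartitionOfUnity.exists_isSubordinate (s := (univ : Set (H ⧸ L)))
    isClosed_univ (fun w : H => π '' (O w)) (fun w => hπo _ (hOo w)) (by
      intro q _
      obtain ⟨v, rfl⟩ := QuotientGroup.mk_surjective q
      refine mem_iUnion.2 ⟨v, v, ?_, rfl⟩
      show 0 < P (v⁻¹ * v)
      rw [inv_mul_cancel]
      exact hP0)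
  let σ : PartitionOfUnity H H univ :=
    { toFun := fun w => (ρ w).comp ⟨π, hπc⟩
      locallyFinite' := ρ.locallyFinite.preimage_continuous hπc
      nonneg' := fun w v => ρ.nonneg w (π v)
      sum_eq_one' := fun v _ => ρ.sum_eq_one (mem_univ (π v))
      sum_le_one' := fun v => ρ.sum_le_one (π v) }
  have hσ : ∀ w v, σ w v = ρ w (π v) := fun w v => rfl
  have hσO : ∀ w, tsupport (σ w) ⊆ O w := by
    intro w
    have h1 : tsupport (σ w) ⊆ π ⁻¹' (tsupport (ρ w)) := by
      apply closure_minimal _ ((isClosed_tsupport _).preimage hπc)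
      intro v hv
      exact subset_tsupport (ρ w) hv
    intro v hv
    rw [← hOpre w]
    exact hρ w (h1 hv)
  refine ⟨fun v => ∑ᶠ w, σ w v • (Q (w⁻¹ * v) / P (w⁻¹ * v)), ?_, ?_⟩
  · refine σ.continuous_finsum_smul ?_
    intro w v hv
    have hpos : 0 < P (w⁻¹ * v) := hσO w hv
    exact ContinuousAt.div (hQc w).continuousAt (hPc w).continuousAt hpos.ne'
  · intro v t
    show ∑ᶠ w, σ w (v * γ t) • (Q (w⁻¹ * (v * γ t)) / P (w⁻¹ * (v * γ t)))
      = (∑ᶠ w, σ w v • (Q (w⁻¹ * v) / P (w⁻¹ * v))) + t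
    have h1 : ∀ w, σ w (v * γ t) • (Q (w⁻¹ * (v * γ t)) / P (w⁻¹ * (v * γ t)))
        = σ w v • (Q (w⁻¹ * v) / P (w⁻¹ * v)) + σ w v * t := by
      intro w
      have e1 : σ w (v * γ t) = σ w v := by
        rw [hσ, hσ, hπx]
      rw [e1, ← mul_assoc, hPt, hQt]
      by_cases h : σ w v = 0
      · rw [h]
        simp
      · have hpos : 0 < P (w⁻¹ * v) := hσO w (subset_tsupport _ h)
        rw [add_div, mul_div_assoc, div_self hpos.ne', mul_one, smul_eq_mul, smul_eq_mul, mul_add]
    rw [finsum_congr h1]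
    have hfin : (Function.support fun w => σ w v).Finite := σ.locallyFinite.point_finite v
    rw [finsum_add_distrib]
    · congr 1
      rw [← finsum_mul' _ _ hfin, σ.sum_eq_one (mem_univ v), one_mul]
    · refine hfin.subset ?_
      intro w hw h
      apply hw
      show σ w v • (Q (w⁻¹ * v) / P (w⁻¹ * v)) = 0
      have h' : σ w v = 0 := h
      rw [h', zero_smul]
    · refine hfin.subset ?_
      intro w hw h
      apply hw
      show σ w v * t = 0
      have h' : σ w v = 0 := h
      rw [h', zero_mul]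

end Pool.Agent.NPG.H1
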